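import Pool.Agent.Y994.KW.Stm

/-!
The central limit theorem for almost additive functionals (job KW-CLT).
-/

set_option autoImplicit false

namespace Pool.Agent.Y454.KW

open Y994.KW Filter Topology

section basic

variable {α : Type} [Fintype α]

theorem Ea_mono {M : ℕ} {f g : (Fin M → α) → ℝ} (h : ∀ c, f c ≤ g c) : Ea M f ≤ Ea M g := by
  unfold Ea
  gcongr with c
  exact h c

theorem Ea_nonneg {M : ℕ} {f : (Fin M → α) → ℝ} (h : ∀ c, 0 ≤ f c) : 0 ≤ Ea M f := by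
  unfold Ea
  have := Finset.sum_nonneg (s := Finset.univ) fun c _ => h c
  positivity

theorem Ea_add {M : ℕ} (f g : (Fin M → α) → ℝ) :
    Ea M (fun c => f c + g c) = Ea M f + Ea M g := by
  unfold Ea
  rw [Finset.sum_add_distrib, add_div]

theorem Ea_mul {M : ℕ} (a : ℝ) (f : (Fin M → α) → ℝ) :
    Ea M (fun c => a * f c) = a * Ea M f := by
  unfold Ea
  rw [← Finset.mul_sum, mul_div_assoc]

theorem Ec_sub {M : ℕ} (f g : (Fin M → α) → ℂ) :
    Ec M (fun c => f c - g c) = Ec M f - Ec M g := by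
  unfold Ec
  rw [Finset.sum_sub_distrib, sub_div]

theorem Ec_norm {M : ℕ} (f : (Fin M → α) → ℂ) : ‖Ec M f‖ ≤ Ea M (fun c => ‖f c‖) := by
  unfold Ec Ea
  rw [norm_div, norm_pow, Complex.norm_natCast]
  gcongr
  exact norm_sum_le _ _

theorem lft_append {M M' : ℕ} (p : (Fin M → α) × (Fin M' → α)) :
    lft M M' (Fin.appendEquiv M M' p) = p.1 := by
  funext i
  simp [lft]

theorem rgt_append {M M' : ℕ} (p : (Fin M → α) × (Fin M' → α)) :
    rgt M M' (Fin.appendEquiv M M' p) = p.2 := by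
  funext i
  simp [rgt]

theorem Ec_prod {M M' : ℕ} (f : (Fin M → α) → ℂ) (g : (Fin M' → α) → ℂ) :
    Ec (M + M') (fun c => f (lft M M' c) * g (rgt M M' c)) = Ec M f * Ec M' g := by
  unfold Ec
  rw [← (Fin.appendEquiv M M').sum_comp]
  simp only [lft_append, rgt_append]
  rw [Fintype.sum_prod_type, pow_add, div_mul_div_comm, Finset.sum_mul_sum]

variable [Nonempty α]

theorem Ea_const {M : ℕ} (a : ℝ) : Ea M (fun _ : Fin M → α => a) = a := by
  unfold Ea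
  have h : (0 : ℝ) < (Fintype.card α : ℝ) ^ M := by
    have : 0 < Fintype.card α := Fintype.card_pos
    positivity
  rw [Finset.sum_const, Finset.card_univ, Fintype.card_fun, Fintype.card_fin, nsmul_eq_mul]
  push_cast
  field_simp

theorem Ec_const {M : ℕ} (a : ℂ) : Ec M (fun _ : Fin M → α => a) = a := by
  unfold Ec
  have h : (Fintype.card α : ℂ) ^ M ≠ 0 := by
    have : Fintype.card α ≠ 0 := Fintype.card_ne_zero
    exact pow_ne_zero _ (Nat.cast_ne_zero.2 this)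
  rw [Finset.sum_const, Finset.card_univ, Fintype.card_fun, Fintype.card_fin, nsmul_eq_mul]
  push_cast
  field_simp

/-- from the fourth to the first moment -/
theorem Ea_abs_of_four {M : ℕ} (f : (Fin M → α) → ℝ) {B : ℝ} (hB : 0 < B)
    (h : Ea M (fun c => f c ^ 4) ≤ B ^ 4) : Ea M (fun c => |f c|) ≤ B := by
  have h1 : ∀ c, |f c| ≤ 1 / (4 * B ^ 3) * f c ^ 4 + 3 * B / 4 := by
    intro c
    have h2 : 0 ≤ |f c| ^ 4 + 3 * B ^ 4 - 4 * B ^ 3 * |f c| := by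
      have h3 : |f c| ^ 4 + 3 * B ^ 4 - 4 * B ^ 3 * |f c| =
          (|f c| - B) ^ 2 * ((|f c| + B) ^ 2 + 2 * B ^ 2) := by ring
      rw [h3]
      positivity
    have h4 : |f c| ^ 4 = f c ^ 4 := by
      rw [← abs_pow]
      exact abs_of_nonneg (by positivity)
    rw [h4] at h2
    have h5 : 1 / (4 * B ^ 3) * f c ^ 4 + 3 * B / 4 - |f c| =
        (f c ^ 4 + 3 * B ^ 4 - 4 * B ^ 3 * |f c|) / (4 * B ^ 3) := by
      field_simp
    have h6 : 0 ≤ (f c ^ 4 + 3 * B ^ 4 - 4 * B ^ 3 * |f c|) / (4 * B ^ 3) := by positivity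
    linarith
  refine (Ea_mono h1).trans ?_
  rw [Ea_add, Ea_mul, Ea_const]
  have h2 : 1 / (4 * B ^ 3) * Ea M (fun c => f c ^ 4) ≤ 1 / (4 * B ^ 3) * B ^ 4 := by gcongr
  have h3 : 1 / (4 * B ^ 3) * B ^ 4 = B / 4 := by field_simp
  linarith

/-- from the second to the first moment -/
theorem Ea_abs_of_two {M : ℕ} (f : (Fin M → α) → ℝ) {B : ℝ} (hB : 0 < B)
    (h : Ea M (fun c => f c ^ 2) ≤ B ^ 2) : Ea M (fun c => |f c|) ≤ B := by
  have h1 : ∀ c, |f c| ≤ 1 / (2 * B) * f c ^ 2 + B / 2 := by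
    intro c
    have h2 : 0 ≤ (|f c| - B) ^ 2 := sq_nonneg _
    have h4 : |f c| ^ 2 = f c ^ 2 := sq_abs _
    have h5 : 1 / (2 * B) * f c ^ 2 + B / 2 - |f c| = (|f c| - B) ^ 2 / (2 * B) := by
      rw [← h4]
      field_simp
      ring
    have h6 : 0 ≤ (|f c| - B) ^ 2 / (2 * B) := by positivity
    linarith
  refine (Ea_mono h1).trans ?_
  rw [Ea_add, Ea_mul, Ea_const]
  have h2 : 1 / (2 * B) * Ea M (fun c => f c ^ 2) ≤ 1 / (2 * B) * B ^ 2 := by gcongr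
  have h3 : 1 / (2 * B) * B ^ 2 = B / 2 := by field_simp
  linarith

/-- the third moment -/
theorem Ea_three {M : ℕ} (f : (Fin M → α) → ℝ) {w a b : ℝ} (hw : 0 < w)
    (h2 : Ea M (fun c => f c ^ 2) ≤ a * w ^ 2) (h4 : Ea M (fun c => f c ^ 4) ≤ b * w ^ 4) :
    Ea M (fun c => |f c| ^ 3) ≤ (a + b) / 2 * w ^ 3 := by
  have h1 : ∀ c, |f c| ^ 3 ≤ w / 2 * f c ^ 2 + 1 / (2 * w) * f c ^ 4 := by
    intro c
    have e2 : |f c| ^ 2 = f c ^ 2 := sq_abs _
    have e4 : |f c| ^ 4 = f c ^ 4 := by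
      rw [← abs_pow]
      exact abs_of_nonneg (by positivity)
    have h5 : w / 2 * f c ^ 2 + 1 / (2 * w) * f c ^ 4 - |f c| ^ 3 =
        |f c| ^ 2 * (|f c| - w) ^ 2 / (2 * w) := by
      rw [← e2, ← e4]
      field_simp
      ring
    have h6 : 0 ≤ |f c| ^ 2 * (|f c| - w) ^ 2 / (2 * w) := by positivity
    linarith
  refine (Ea_mono h1).trans ?_
  rw [Ea_add, Ea_mul, Ea_mul]
  have h5 : w / 2 * Ea M (fun c => f c ^ 2) ≤ w / 2 * (a * w ^ 2) := by gcongr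
  have h6 : 1 / (2 * w) * Ea M (fun c => f c ^ 4) ≤ 1 / (2 * w) * (b * w ^ 4) := by gcongr
  have h7 : w / 2 * (a * w ^ 2) + 1 / (2 * w) * (b * w ^ 4) = (a + b) / 2 * w ^ 3 := by
    field_simp
  linarith

end basic

section expo

theorem exp_lip (x y : ℝ) : ‖Complex.exp ((x : ℂ) * Complex.I) - Complex.exp ((y : ℂ) * Complex.I)‖ ≤
    |x - y| := by
  have h1 : Complex.exp ((x : ℂ) * Complex.I) - Complex.exp ((y : ℂ) * Complex.I) =
      Complex.exp ((y : ℂ) * Complex.I) * (Complex.exp (Complex.I * ((x - y : ℝ) : ℂ)) - 1) := by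
    rw [mul_sub, mul_one, ← Complex.exp_add]
    congr 2
    push_cast
    ring
  rw [h1, norm_mul, Complex.norm_exp_ofReal_mul_I, one_mul]
  exact Real.norm_exp_I_mul_ofReal_sub_one_le

theorem exp_taylor (x : ℝ) : ‖Complex.exp ((x : ℂ) * Complex.I) -
    (1 + (x : ℂ) * Complex.I - ((x ^ 2 / 2 : ℝ) : ℂ))‖ ≤ 4 * |x| ^ 3 := by
  have hz : ‖(x : ℂ) * Complex.I‖ = |x| := by
    rw [norm_mul, Complex.norm_I, mul_one, Complex.norm_real, Real.norm_eq_abs]
  rcases le_or_gt |x| 1 with h | h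
  · have h1 := Complex.exp_bound (x := (x : ℂ) * Complex.I) (by rw [hz]; exact h) (n := 3) (by norm_num)
    have e : ∑ m ∈ Finset.range 3, ((x : ℂ) * Complex.I) ^ m / (m.factorial : ℂ) =
        1 + (x : ℂ) * Complex.I - ((x ^ 2 / 2 : ℝ) : ℂ) := by
      rw [Finset.sum_range_succ, Finset.sum_range_succ, Finset.sum_range_succ,
        Finset.sum_range_zero]
      norm_num [Nat.factorial]
      rw [mul_pow, Complex.I_sq]
      ring
    rw [e, hz] at h1
    refine h1.trans ?_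
    have h3 : 0 ≤ |x| ^ 3 := by positivity
    have : (((Nat.succ 3 : ℕ) : ℝ) * (((3 : ℕ).factorial * (3:ℕ) : ℝ))⁻¹) ≤ 4 := by
      norm_num [Nat.factorial]
    calc _ ≤ |x| ^ 3 * 4 := mul_le_mul_of_nonneg_left this h3
      _ = _ := mul_comm _ _
  · have h1 : ‖Complex.exp ((x : ℂ) * Complex.I)‖ = 1 := Complex.norm_exp_ofReal_mul_I x
    have h2 : ‖(1 + (x : ℂ) * Complex.I - ((x ^ 2 / 2 : ℝ) : ℂ))‖ ≤ 1 + |x| + x ^ 2 / 2 := by
      calc _ ≤ ‖(1 : ℂ) + (x : ℂ) * Complex.I‖ + ‖((x ^ 2 / 2 : ℝ) : ℂ)‖ := norm_sub_le _ _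
        _ ≤ (‖(1 : ℂ)‖ + ‖(x : ℂ) * Complex.I‖) + ‖((x ^ 2 / 2 : ℝ) : ℂ)‖ := by
            gcongr
            exact norm_add_le _ _
        _ = 1 + |x| + x ^ 2 / 2 := by
            rw [norm_one, hz, Complex.norm_real, Real.norm_of_nonneg (by positivity)]
    have h3 := norm_sub_le (Complex.exp ((x : ℂ) * Complex.I))
      (1 + (x : ℂ) * Complex.I - ((x ^ 2 / 2 : ℝ) : ℂ))
    have h4 : x ^ 2 = |x| ^ 2 := (sq_abs x).symm
    have h5 : |x| ≤ |x| ^ 2 := by nlinarith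
    have h6 : |x| ^ 2 ≤ |x| ^ 3 := by nlinarith [sq_nonneg |x|]
    have h7 : 1 ≤ |x| ^ 3 := by linarith
    rw [h1] at h3
    linarith

theorem pow_lip {a b : ℂ} (ha : ‖a‖ ≤ 1) (hb : ‖b‖ ≤ 1) (J : ℕ) :
    ‖a ^ J - b ^ J‖ ≤ J * ‖a - b‖ := by
  induction J with
  | zero => simp
  | succ J ih =>
    have e : a ^ (J + 1) - b ^ (J + 1) = a * (a ^ J - b ^ J) + (a - b) * b ^ J := by ring
    rw [e]
    calc _ ≤ ‖a * (a ^ J - b ^ J)‖ + ‖(a - b) * b ^ J‖ := norm_add_le _ _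
      _ = ‖a‖ * ‖a ^ J - b ^ J‖ + ‖a - b‖ * ‖b‖ ^ J := by rw [norm_mul, norm_mul, norm_pow]
      _ ≤ 1 * (J * ‖a - b‖) + ‖a - b‖ * 1 := by
          gcongr
          exact pow_le_one₀ (norm_nonneg _) hb
      _ = ((J + 1 : ℕ) : ℝ) * ‖a - b‖ := by push_cast; ring

theorem exp_one_sub {x : ℝ} (hx : 0 ≤ x) : |(1 - x) - Real.exp (-x)| ≤ x ^ 2 / 2 := by
  have h1 : 1 - x ≤ Real.exp (-x) := by
    have := Real.add_one_le_exp (-x)
    linarith
  have h2 : Real.exp (-x) ≤ 1 - x + x ^ 2 / 2 := by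
    have h3 : 1 + x + x ^ 2 / 2 ≤ Real.exp x := Real.quadratic_le_exp_of_nonneg hx
    have h4 : 0 < 1 + x + x ^ 2 / 2 := by positivity
    rw [Real.exp_neg]
    have h5 : (Real.exp x)⁻¹ ≤ (1 + x + x ^ 2 / 2)⁻¹ := inv_anti₀ h4 h3
    refine h5.trans ?_
    rw [inv_le_iff_one_le_mul₀ h4]
    nlinarith [sq_nonneg (x ^ 2)]
  rw [abs_le]
  constructor <;> linarith [sq_nonneg x]

theorem exp_neg_lip {x y : ℝ} (hx : 0 ≤ x) (hy : 0 ≤ y) :
    |Real.exp (-x) - Real.exp (-y)| ≤ |x - y| := by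
  wlog h : x ≤ y generalizing x y
  · have := this hy hx (le_of_not_ge h)
    rwa [abs_sub_comm, abs_sub_comm x y]
  have h1 : Real.exp (-y) ≤ Real.exp (-x) := Real.exp_le_exp.2 (by linarith)
  rw [abs_of_nonneg (by linarith), abs_of_nonpos (by linarith)]
  have h2 : Real.exp (-y) = Real.exp (-x) * Real.exp (-(y - x)) := by
    rw [← Real.exp_add]
    congr 1
    ring
  have h3 : 1 - (y - x) ≤ Real.exp (-(y - x)) := by
    have := Real.add_one_le_exp (-(y - x))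
    linarith
  have h4 : Real.exp (-x) ≤ 1 := Real.exp_le_one_iff.2 (by linarith)
  have h5 : 0 < Real.exp (-x) := Real.exp_pos _
  have h6 : Real.exp (-x) - Real.exp (-y) = Real.exp (-x) * (1 - Real.exp (-(y - x))) := by
    rw [h2]
    ring
  rw [h6]
  have h7 : 1 - Real.exp (-(y - x)) ≤ y - x := by linarith
  have h8 : 0 ≤ y - x := by linarith
  nlinarith

end expo

section phi

variable {α : Type} [Fintype α] [Nonempty α] (Y : ∀ M : ℕ, (Fin M → α) → ℝ)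

/-- the characteristic function -/
noncomputable def phi (t : ℝ) (M : ℕ) : ℂ :=
  Ec M (fun c => Complex.exp (((t * Y M c : ℝ) : ℂ) * Complex.I))

theorem phi_le (t : ℝ) (M : ℕ) : ‖phi Y t M‖ ≤ 1 := by
  refine (Ec_norm _).trans ?_
  simp only [Complex.norm_exp_ofReal_mul_I]
  exact (Ea_const 1).le

variable {Y} {B D : ℝ} {m0 : ℕ}

theorem phi_add (h : Qa Y B D m0) (t : ℝ) (M M' : ℕ) :
    ‖phi Y t (M + M') - phi Y t M * phi Y t M'‖ ≤ |t| * B := by
  have e1 : phi Y t (M + M') - phi Y t M * phi Y t M' = Ec (M + M') (fun c =>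
      Complex.exp (((t * Y (M + M') c : ℝ) : ℂ) * Complex.I) -
      Complex.exp (((t * Y M (lft M M' c) : ℝ) : ℂ) * Complex.I) *
      Complex.exp (((t * Y M' (rgt M M' c) : ℝ) : ℂ) * Complex.I)) := by
    rw [Ec_sub, Ec_prod (fun c => Complex.exp (((t * Y M c : ℝ) : ℂ) * Complex.I))
      (fun c => Complex.exp (((t * Y M' c : ℝ) : ℂ) * Complex.I))]
    rfl
  rw [e1]
  refine (Ec_norm _).trans ?_
  have h1 : ∀ c : Fin (M + M') → α, ‖Complex.exp (((t * Y (M + M') c : ℝ) : ℂ) * Complex.I) -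
      Complex.exp (((t * Y M (lft M M' c) : ℝ) : ℂ) * Complex.I) *
      Complex.exp (((t * Y M' (rgt M M' c) : ℝ) : ℂ) * Complex.I)‖ ≤
      |t| * |Y (M + M') c - Y M (lft M M' c) - Y M' (rgt M M' c)| := by
    intro c
    rw [← Complex.exp_add]
    have e2 : ((t * Y M (lft M M' c) : ℝ) : ℂ) * Complex.I +
        ((t * Y M' (rgt M M' c) : ℝ) : ℂ) * Complex.I =
        ((t * (Y M (lft M M' c) + Y M' (rgt M M' c)) : ℝ) : ℂ) * Complex.I := by
      push_cast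
      ring
    rw [e2]
    refine (exp_lip _ _).trans ?_
    rw [← abs_mul]
    apply le_of_eq
    congr 1
    ring
  refine (Ea_mono h1).trans ?_
  rw [Ea_mul]
  exact mul_le_mul_of_nonneg_left (Ea_abs_of_four _ h.Bpos (h.err M M')) (abs_nonneg _)

theorem phi_blocks (h : Qa Y B D m0) (t : ℝ) (L R : ℕ) : ∀ J : ℕ,
    ‖phi Y t (J * L + R) - phi Y t L ^ J * phi Y t R‖ ≤ J * (|t| * B) := by
  intro J
  induction J with
  | zero => simp
  | succ J ih =>
    have e : (J + 1) * L + R = L + (J * L + R) := by ring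
    rw [e]
    have h1 := phi_add h t L (J * L + R)
    have h2 : phi Y t (L + (J * L + R)) - phi Y t L ^ (J + 1) * phi Y t R =
        (phi Y t (L + (J * L + R)) - phi Y t L * phi Y t (J * L + R)) +
        phi Y t L * (phi Y t (J * L + R) - phi Y t L ^ J * phi Y t R) := by ring
    rw [h2]
    calc _ ≤ _ := norm_add_le _ _
      _ ≤ |t| * B + 1 * (J * (|t| * B)) := by
          rw [norm_mul]
          have h3 := phi_le Y t L
          gcongr
      _ = ((J + 1 : ℕ) : ℝ) * (|t| * B) := by push_cast; ring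

theorem phi_one (t : ℝ) (R : ℕ) {b : ℝ} (hb : 0 < b) (h2 : Ea R (fun c => Y R c ^ 2) ≤ b ^ 2) :
    ‖phi Y t R - 1‖ ≤ |t| * b := by
  have e1 : phi Y t R - 1 = Ec R (fun c =>
      Complex.exp (((t * Y R c : ℝ) : ℂ) * Complex.I) - 1) := by
    rw [Ec_sub, Ec_const]
    rfl
  rw [e1]
  refine (Ec_norm _).trans ?_
  have h1 : ∀ c : Fin R → α, ‖Complex.exp (((t * Y R c : ℝ) : ℂ) * Complex.I) - 1‖ ≤
      |t| * |Y R c| := by
    intro c
    have := exp_lip (t * Y R c) 0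
    rw [Complex.ofReal_zero, zero_mul, Complex.exp_zero, sub_zero, abs_mul] at this
    exact this
  refine (Ea_mono h1).trans ?_
  rw [Ea_mul]
  exact mul_le_mul_of_nonneg_left (Ea_abs_of_two _ hb h2) (abs_nonneg _)

theorem Ec_ofReal {M : ℕ} (f : (Fin M → α) → ℝ) : Ec M (fun c => (f c : ℂ)) = ((Ea M f : ℝ) : ℂ) := by
  unfold Ec Ea
  push_cast
  rfl

theorem phi_two (h : Qa Y B D m0) (t : ℝ) (L : ℕ) :
    ‖phi Y t L - ((1 - t ^ 2 * Ea L (fun c => Y L c ^ 2) / 2 : ℝ) : ℂ)‖ ≤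
      4 * |t| ^ 3 * Ea L (fun c => |Y L c| ^ 3) := by
  have e0 : ((1 - t ^ 2 * Ea L (fun c => Y L c ^ 2) / 2 : ℝ) : ℂ) = Ec L (fun c =>
      1 + ((t * Y L c : ℝ) : ℂ) * Complex.I - (((t * Y L c) ^ 2 / 2 : ℝ) : ℂ)) := by
    have e2 : Ec L (fun c => 1 + ((t * Y L c : ℝ) : ℂ) * Complex.I -
        (((t * Y L c) ^ 2 / 2 : ℝ) : ℂ)) =
        Ec L (fun c => ((1 - t ^ 2 / 2 * Y L c ^ 2 : ℝ) : ℂ)) +
        Complex.I * Ec L (fun c => ((t * Y L c : ℝ) : ℂ)) := by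
      unfold Ec
      rw [mul_div_assoc', Finset.mul_sum, ← add_div, ← Finset.sum_add_distrib]
      congr 1
      refine Finset.sum_congr rfl fun c _ => ?_
      push_cast
      ring
    rw [e2, Ec_ofReal, Ec_ofReal, Ea_mul, h.mean, mul_zero, Complex.ofReal_zero, mul_zero, add_zero]
    have e3 : Ea L (fun c => 1 - t ^ 2 / 2 * Y L c ^ 2) =
        1 + -(t ^ 2 / 2) * Ea L (fun c => Y L c ^ 2) := by
      rw [← Ea_mul, ← Ea_const (α := α) (M := L) 1, ← Ea_add]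
      rw [Ea_const]
      congr 1
      funext c
      ring
    rw [e3]
    congr 1
    ring
  have e1 : phi Y t L - ((1 - t ^ 2 * Ea L (fun c => Y L c ^ 2) / 2 : ℝ) : ℂ) = Ec L (fun c =>
      Complex.exp (((t * Y L c : ℝ) : ℂ) * Complex.I) -
      (1 + ((t * Y L c : ℝ) : ℂ) * Complex.I - (((t * Y L c) ^ 2 / 2 : ℝ) : ℂ))) := by
    rw [Ec_sub, e0]
    rfl
  rw [e1]
  refine (Ec_norm _).trans ?_
  rw [← Ea_mul]
  refine Ea_mono fun c => ?_
  refine (exp_taylor _).trans ?_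
  rw [abs_mul, mul_pow, mul_assoc]

end phi

end Pool.Agent.Y454.KW
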