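import Pool.Agent.Y994.KW.Stm2

/-!
# KW2-BMC: the characteristic functions determine the law of the increments
-/

set_option autoImplicit false

namespace Pool.Agent.Y454.KW

open Y994.KW MeasureTheory ProbabilityTheory

theorem t_BMC : S_BMC := by
  intro W hW h0 hch
  refine ⟨hW, h0, ?_⟩
  intro k t ht
  have hm : Measurable (fun (w : Pa) (j : Fin k) => w (t j.succ) - w (t j.castSucc)) := by
    refine measurable_pi_lambda _ fun j => ?_
    refine Continuous.measurable ?_
    exact (continuous_eval_const (t j.succ)).sub (continuous_eval_const (t j.castSucc))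
  have : IsProbabilityMeasure
      (W.map (fun (w : Pa) (j : Fin k) => w (t j.succ) - w (t j.castSucc))) :=
    Measure.isProbabilityMeasure_map hm.aemeasurable
  refine charFun_eq_pi_iff.1 ?_
  intro θ
  have hL : Measurable (WithLp.toLp 2 : (Fin k → ℝ) → PiLp 2 (fun _ : Fin k => ℝ)) :=
    (MeasurableEquiv.toLp 2 (Fin k → ℝ)).measurable
  rw [Measure.map_map hL hm, charFun_apply, integral_map (hL.comp hm).aemeasurable]
  · have h1 := hch k t (fun j => θ j) ht
    unfold chI chB at h1
    have h2 : ∀ w : Pa, Complex.exp ((inner ℝ ((WithLp.toLp 2 ∘ fun (w : Pa) (j : Fin k) =>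
        w (t j.succ) - w (t j.castSucc)) w) θ : ℝ) * Complex.I) =
        Complex.exp (((∑ j : Fin k, θ j * (w (t j.succ) - w (t j.castSucc)) : ℝ) : ℂ)
          * Complex.I) := by
      intro w
      congr 3
    rw [integral_congr_ae (Filter.Eventually.of_forall h2), h1]
    simp_rw [charFun_gaussianReal]
    rw [← Complex.exp_sum]
    congr 1
    push_cast
    rw [← Finset.sum_neg_distrib]
    refine Finset.sum_congr rfl fun j _ => ?_
    have h3 : ((t j.castSucc : unitInterval) : ℝ) ≤ t j.succ :=
      ht (Fin.castSucc_lt_succ).le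
    have h4 : ((Real.toNNReal ((t j.succ : ℝ) - t j.castSucc) : NNReal) : ℝ)
        = (t j.succ : ℝ) - t j.castSucc := Real.coe_toNNReal _ (by linarith)
    have h5 : (((Real.toNNReal ((t j.succ : ℝ) - t j.castSucc) : NNReal) : ℝ) : ℂ)
        = (t j.succ : ℂ) - t j.castSucc := by
      rw [h4]; push_cast; rfl
    rw [h5]
    ring
  · refine Continuous.aestronglyMeasurable ?_
    fun_prop

end Pool.Agent.Y454.KW
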