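import Pool.Agent.Y454.KW.Clt

/-!
The central limit theorem for almost additive functionals (job KW-CLT), assembly.
-/

set_option autoImplicit false

namespace Pool.Agent.Y454.KW

open Y994.KW Filter Topology

theorem main_bound {K δ θ : ℝ} (hK : 0 < K) (hδ : 0 < δ) {α : Type} [Fintype α] [Nonempty α]
    {Y : ∀ M : ℕ, (Fin M → α) → ℝ} {B D : ℝ} {m0 : ℕ} (h : Qa Y B D m0)
    (hq : ∀ M : ℕ, |√(Ea M (fun c => Y M c ^ 2)) - √(D * M)| ≤ K * B)
    (h4 : ∀ M : ℕ, m0 ≤ M → Ea M (fun c => Y M c ^ 4) ≤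
      K * (B ^ 2 + D * M) ^ 2 + K * (B ^ 2 * (M / m0)) ^ 2)
    (hBD : δ * B ^ 2 ≤ D * m0) {M J : ℕ} (hJ : 1 ≤ J) (hM : m0 * J ≤ M) {u v : ℝ}
    (hu0 : 0 ≤ u) (hu : B ≤ u * √(D * M)) (hv : (J : ℝ) ≤ v * M)
    (hη : v + √J * K * u ≤ 1) :
    ‖phi Y (θ / √(D * M)) M - Complex.exp (((-(θ ^ 2 / 2) : ℝ) : ℂ))‖ ≤
      J * |θ| * u + |θ| * (√v + K * u) +
      2 * ((1 + K / √δ) ^ 2 + K * ((1 + 1 / δ) ^ 2 + (1 / δ) ^ 2)) * |θ| ^ 3 / √J +
      2 * θ ^ 4 / J + 3 / 2 * θ ^ 2 * (v + √J * K * u) := by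
  have hB := h.Bpos
  have hm0 : (1 : ℝ) ≤ m0 := by exact_mod_cast h.mpos
  have hJ1 : (1 : ℝ) ≤ J := by exact_mod_cast hJ
  have hJ0 : (0 : ℝ) < J := by linarith
  have hMn : 1 ≤ M := le_trans (Nat.one_le_iff_ne_zero.2 (by
    have := h.mpos
    positivity)) hM
  have hM1 : (1 : ℝ) ≤ M := by exact_mod_cast hMn
  have hM0 : (0 : ℝ) < M := by linarith
  have hD : 0 < D := by
    by_contra hD
    push Not at hD
    have h1 : D * m0 ≤ 0 := mul_nonpos_of_nonpos_of_nonneg hD (by linarith)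
    have h2 : 0 < δ * B ^ 2 := by positivity
    linarith
  set S : ℝ := √(D * M) with hS
  have hDM : 0 < D * M := by positivity
  have hS0 : 0 < S := Real.sqrt_pos.2 hDM
  have hS2 : S ^ 2 = D * M := Real.sq_sqrt hDM.le
  set t : ℝ := θ / S with ht
  have htabs : |t| = |θ| / S := by rw [ht, abs_div, abs_of_pos hS0]
  have hv0 : 0 ≤ v := by
    by_contra h0
    push Not at h0
    have : v * M < 0 := mul_neg_of_neg_of_pos h0 hM0
    linarith
  set L : ℕ := M / J with hL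
  set R : ℕ := M % J with hR
  have hLR : J * L + R = M := Nat.div_add_mod M J
  have hRJ : R < J := Nat.mod_lt _ (by omega)
  have hL0 : m0 ≤ L := (Nat.le_div_iff_mul_le (by omega)).2 hM
  have hLR' : (J : ℝ) * L + R = M := by exact_mod_cast hLR
  have hRJ' : (R : ℝ) ≤ J := by exact_mod_cast hRJ.le
  have hLm : (m0 : ℝ) ≤ L := by exact_mod_cast hL0
  have hLpos : (0 : ℝ) < L := by linarith
  set w : ℝ := √(D * L) with hw
  have hw0 : 0 < w := Real.sqrt_pos.2 (by positivity)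
  have hw2 : w ^ 2 = D * L := Real.sq_sqrt (by positivity)
  set r : ℝ := w / S with hr
  have hr0 : 0 < r := by positivity
  have hr2 : r ^ 2 * M = L := by
    rw [hr, div_pow, hw2, hS2]
    field_simp
  have hJr : J * r ^ 2 ≤ 1 := by
    have h1 : (J * r ^ 2) * M ≤ 1 * M := by
      have h2 : (0 : ℝ) ≤ R := Nat.cast_nonneg _
      calc ((J : ℝ) * r ^ 2) * (M : ℝ) = (J : ℝ) * (r ^ 2 * (M : ℝ)) := by ring
        _ = (J : ℝ) * (L : ℝ) := by rw [hr2]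
        _ ≤ 1 * (M : ℝ) := by linarith
    exact le_of_mul_le_mul_right h1 hM0
  have hJr' : 1 - J * r ^ 2 ≤ v := by
    have h1 : (1 - J * r ^ 2) * M ≤ v * M := by
      calc (1 - (J : ℝ) * r ^ 2) * (M : ℝ) = (M : ℝ) - (J : ℝ) * (r ^ 2 * (M : ℝ)) := by ring
        _ = (M : ℝ) - (J : ℝ) * (L : ℝ) := by rw [hr2]
        _ ≤ v * (M : ℝ) := by linarith
    exact le_of_mul_le_mul_right h1 hM0
  -- `B` against `w`
  have hsδ : 0 < √δ := Real.sqrt_pos.2 hδ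
  have hsδ2 : √δ ^ 2 = δ := Real.sq_sqrt hδ.le
  have hBw2 : δ * B ^ 2 ≤ w ^ 2 := by
    rw [hw2]
    refine hBD.trans ?_
    gcongr
  have hBw : B ≤ w / √δ := by
    rw [le_div_iff₀ hsδ]
    apply le_of_sq_le_sq _ hw0.le
    rw [mul_pow, hsδ2]
    linarith
  set a2 : ℝ := Ea L (fun c => Y L c ^ 2) with ha2
  have ha20 : 0 ≤ a2 := Ea_nonneg fun c => sq_nonneg _
  have hq' := abs_le.1 (hq L)
  have hsq : √a2 ≤ (1 + K / √δ) * w := by
    have h1 : √a2 ≤ w + K * B := by linarith [hq'.2]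
    refine h1.trans ?_
    have h2 : K * B ≤ K * (w / √δ) := by gcongr
    calc w + K * B ≤ w + K * (w / √δ) := by linarith
      _ = (1 + K / √δ) * w := by ring
  have ha2le : a2 ≤ (1 + K / √δ) ^ 2 * w ^ 2 := by
    rw [← mul_pow, ← Real.sq_sqrt ha20]
    gcongr
  have ha4le : Ea L (fun c => Y L c ^ 4) ≤ (K * ((1 + 1 / δ) ^ 2 + (1 / δ) ^ 2)) * w ^ 4 := by
    refine (h4 L hL0).trans ?_
    have h1 : B ^ 2 ≤ w ^ 2 / δ := by
      rw [le_div_iff₀ hδ]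
      linarith
    have h2 : B ^ 2 + D * L ≤ (1 + 1 / δ) * w ^ 2 := by
      rw [← hw2]
      calc B ^ 2 + w ^ 2 ≤ w ^ 2 / δ + w ^ 2 := by linarith
        _ = (1 + 1 / δ) * w ^ 2 := by ring
    have h3 : B ^ 2 * (L / m0) ≤ 1 / δ * w ^ 2 := by
      have h5 : B ^ 2 ≤ D * m0 / δ := by
        rw [le_div_iff₀ hδ]
        linarith
      calc B ^ 2 * (L / m0) ≤ D * m0 / δ * (L / m0) := by gcongr
        _ = 1 / δ * (D * L) := by field_simp
        _ = 1 / δ * w ^ 2 := by rw [hw2]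
    calc K * (B ^ 2 + D * L) ^ 2 + K * (B ^ 2 * (L / m0)) ^ 2 ≤
          K * ((1 + 1 / δ) * w ^ 2) ^ 2 + K * (1 / δ * w ^ 2) ^ 2 := by gcongr
      _ = (K * ((1 + 1 / δ) ^ 2 + (1 / δ) ^ 2)) * w ^ 4 := by ring
  set C : ℝ := (1 + K / √δ) ^ 2 + K * ((1 + 1 / δ) ^ 2 + (1 / δ) ^ 2) with hC
  have hC0 : 0 ≤ C := by positivity
  have h3 : Ea L (fun c => |Y L c| ^ 3) ≤ C / 2 * w ^ 3 := Ea_three _ hw0 ha2le ha4le
  -- the estimate for one block
  set z : ℝ := t ^ 2 * a2 / 2 with hz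
  have hz0 : 0 ≤ z := by positivity
  have b1 : ‖phi Y t L - ((1 - z : ℝ) : ℂ)‖ ≤ 2 * C * |θ| ^ 3 * r ^ 3 := by
    refine (phi_two h t L).trans ?_
    calc 4 * |t| ^ 3 * Ea L (fun c => |Y L c| ^ 3) ≤ 4 * |t| ^ 3 * (C / 2 * w ^ 3) := by gcongr
      _ = 2 * C * |θ| ^ 3 * r ^ 3 := by
          rw [htabs, hr]
          ring
  have b2 : ‖((1 - z : ℝ) : ℂ) - ((Real.exp (-z) : ℝ) : ℂ)‖ ≤ z ^ 2 / 2 := by
    rw [← Complex.ofReal_sub, Complex.norm_real, Real.norm_eq_abs]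
    exact exp_one_sub hz0
  have b3 : ‖((Real.exp (-z) : ℝ) : ℂ) - ((Real.exp (-(θ ^ 2 / (2 * J))) : ℝ) : ℂ)‖ ≤
      |z - θ ^ 2 / (2 * J)| := by
    rw [← Complex.ofReal_sub, Complex.norm_real, Real.norm_eq_abs]
    exact exp_neg_lip hz0 (by positivity)
  set s : ℝ := √J * √a2 / S with hs
  have hs0 : 0 ≤ s := by positivity
  have hs2 : s ^ 2 = J * a2 / S ^ 2 := by
    rw [hs, div_pow, mul_pow, Real.sq_sqrt hJ0.le, Real.sq_sqrt ha20]
  have hJz : J * z = θ ^ 2 * s ^ 2 / 2 := by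
    rw [hz, hs2, ht]
    ring
  have hsJ0 : 0 ≤ √(J : ℝ) := Real.sqrt_nonneg _
  have hJr1 : √(J : ℝ) * r ≤ 1 := by
    apply le_of_sq_le_sq _ zero_le_one
    rw [mul_pow, Real.sq_sqrt hJ0.le, one_pow]
    exact hJr
  have hs1 : |s - 1| ≤ v + √J * K * u := by
    have e1 : |s - √J * r| ≤ √J * K * u := by
      have e2 : s - √J * r = √J * ((√a2 - w) / S) := by
        rw [hs, hr]
        ring
      rw [e2, abs_mul, abs_of_nonneg hsJ0, abs_div, abs_of_pos hS0, mul_assoc]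
      gcongr
      rw [div_le_iff₀ hS0]
      calc |√a2 - w| ≤ K * B := hq L
        _ ≤ K * (u * S) := by gcongr
        _ = K * u * S := by ring
    have e3 : |√J * r - 1| ≤ v := by
      rw [abs_of_nonpos (by linarith)]
      have e4 : (√(J : ℝ) * r) ^ 2 ≤ √J * r := by
        have h0 : 0 ≤ √(J : ℝ) * r := mul_nonneg hsJ0 hr0.le
        rw [sq]
        exact mul_le_of_le_one_left h0 hJr1
      rw [mul_pow, Real.sq_sqrt hJ0.le] at e4
      linarith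
    calc |s - 1| = |(s - √J * r) + (√J * r - 1)| := by ring_nf
      _ ≤ |s - √J * r| + |√J * r - 1| := abs_add_le _ _
      _ ≤ v + √J * K * u := by linarith
  set η : ℝ := v + √J * K * u with hηdef
  have hη0 : 0 ≤ η := (abs_nonneg _).trans hs1
  have hsabs := abs_le.1 hs1
  have hs2' : |s ^ 2 - 1| ≤ 3 * η := by
    have e1 : s ^ 2 - 1 = (s - 1) * (s + 1) := by ring
    rw [e1, abs_mul, abs_of_nonneg (by linarith : 0 ≤ s + 1)]
    have e2 : s + 1 ≤ 3 := by linarith [hsabs.2]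
    calc |s - 1| * (s + 1) ≤ η * 3 := by gcongr
      _ = 3 * η := by ring
  have c2 : (J : ℝ) * (z ^ 2 / 2) ≤ 2 * θ ^ 4 / J := by
    have e1 : J * z ≤ 2 * θ ^ 2 := by
      rw [hJz]
      have e2 : s ≤ 2 := by linarith [hsabs.2]
      have e3 : s ^ 2 ≤ 2 ^ 2 := pow_le_pow_left₀ hs0 e2 2
      have e4 : 0 ≤ θ ^ 2 := sq_nonneg _
      have e5 : θ ^ 2 * s ^ 2 ≤ θ ^ 2 * 2 ^ 2 := mul_le_mul_of_nonneg_left e3 e4
      linarith
    have e2 : (J * z) ^ 2 ≤ (2 * θ ^ 2) ^ 2 := by gcongr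
    rw [le_div_iff₀ hJ0]
    calc (J : ℝ) * (z ^ 2 / 2) * J = (J * z) ^ 2 / 2 := by ring
      _ ≤ (2 * θ ^ 2) ^ 2 / 2 := by gcongr
      _ = 2 * θ ^ 4 := by ring
  have c3 : (J : ℝ) * |z - θ ^ 2 / (2 * J)| ≤ 3 / 2 * θ ^ 2 * η := by
    have e1 : (J : ℝ) * |z - θ ^ 2 / (2 * J)| = |J * z - θ ^ 2 / 2| := by
      rw [← abs_of_pos hJ0, ← abs_mul, abs_of_pos hJ0]
      congr 1
      field_simp
    rw [e1, hJz]
    have e2 : θ ^ 2 * s ^ 2 / 2 - θ ^ 2 / 2 = θ ^ 2 / 2 * (s ^ 2 - 1) := by ring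
    rw [e2, abs_mul, abs_of_nonneg (by positivity)]
    calc θ ^ 2 / 2 * |s ^ 2 - 1| ≤ θ ^ 2 / 2 * (3 * η) := by gcongr
      _ = 3 / 2 * θ ^ 2 * η := by ring
  have c1 : (J : ℝ) * (2 * C * |θ| ^ 3 * r ^ 3) ≤ 2 * C * |θ| ^ 3 / √J := by
    have e1 : (J : ℝ) * r ^ 3 ≤ 1 / √J := by
      have e2 : r ≤ 1 / √J := by
        rw [le_div_iff₀ (by positivity)]
        linarith
      calc (J : ℝ) * r ^ 3 = (J * r ^ 2) * r := by ring
        _ ≤ 1 * (1 / √J) := by gcongr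
        _ = 1 / √J := one_mul _
    calc (J : ℝ) * (2 * C * |θ| ^ 3 * r ^ 3) = 2 * C * |θ| ^ 3 * (J * r ^ 3) := by ring
      _ ≤ 2 * C * |θ| ^ 3 * (1 / √J) := by gcongr
      _ = 2 * C * |θ| ^ 3 / √J := by ring
  -- the blocks
  set E : ℂ := ((Real.exp (-(θ ^ 2 / (2 * J))) : ℝ) : ℂ) with hE
  have hE1 : ‖E‖ ≤ 1 := by
    rw [hE, Complex.norm_real, Real.norm_of_nonneg (Real.exp_pos _).le]
    apply Real.exp_le_one_iff.2
    have : 0 ≤ θ ^ 2 / (2 * J) := by positivity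
    linarith
  have hEJ : E ^ J = Complex.exp (((-(θ ^ 2 / 2) : ℝ) : ℂ)) := by
    rw [hE, ← Complex.ofReal_pow, ← Real.exp_nat_mul, ← Complex.ofReal_exp]
    congr 2
    field_simp
  have d1 : ‖phi Y t L ^ J - E ^ J‖ ≤ 2 * C * |θ| ^ 3 / √J + 2 * θ ^ 4 / J +
      3 / 2 * θ ^ 2 * η := by
    refine (pow_lip (phi_le Y t L) hE1 J).trans ?_
    have e1 : ‖phi Y t L - E‖ ≤ 2 * C * |θ| ^ 3 * r ^ 3 + z ^ 2 / 2 + |z - θ ^ 2 / (2 * J)| := by
      have e2 : phi Y t L - E = (phi Y t L - ((1 - z : ℝ) : ℂ)) +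
          (((1 - z : ℝ) : ℂ) - ((Real.exp (-z) : ℝ) : ℂ)) +
          (((Real.exp (-z) : ℝ) : ℂ) - E) := by ring
      rw [e2]
      refine (norm_add₃_le).trans ?_
      linarith
    calc (J : ℝ) * ‖phi Y t L - E‖ ≤
          J * (2 * C * |θ| ^ 3 * r ^ 3 + z ^ 2 / 2 + |z - θ ^ 2 / (2 * J)|) := by gcongr
      _ = J * (2 * C * |θ| ^ 3 * r ^ 3) + J * (z ^ 2 / 2) + J * |z - θ ^ 2 / (2 * J)| := by ring
      _ ≤ _ := by linarith
  have d2 : ‖phi Y t M - phi Y t L ^ J * phi Y t R‖ ≤ J * |θ| * u := by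
    have e1 := phi_blocks h t L R J
    rw [hLR] at e1
    refine e1.trans ?_
    rw [htabs, mul_assoc]
    have e2 : |θ| / S * B ≤ |θ| * u := by
      calc |θ| / S * B ≤ |θ| / S * (u * S) := by gcongr
        _ = |θ| * u := by field_simp
    exact mul_le_mul_of_nonneg_left e2 hJ0.le
  have d3 : ‖phi Y t R - 1‖ ≤ |θ| * (√v + K * u) := by
    have hqR := abs_le.1 (hq R)
    have hb : 0 < √(D * R) + K * B := by positivity
    have e1 := phi_one (Y := Y) t R hb (by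
      have e2 : √(Ea R (fun c => Y R c ^ 2)) ≤ √(D * R) + K * B := by linarith [hqR.2]
      have e3 : 0 ≤ Ea R (fun c => Y R c ^ 2) := Ea_nonneg fun c => sq_nonneg _
      calc Ea R (fun c => Y R c ^ 2) = √(Ea R (fun c => Y R c ^ 2)) ^ 2 := (Real.sq_sqrt e3).symm
        _ ≤ (√(D * R) + K * B) ^ 2 := by gcongr)
    refine e1.trans ?_
    rw [htabs]
    have e4 : √(D * R) ≤ √v * S := by
      rw [hS, ← Real.sqrt_mul hv0]
      apply Real.sqrt_le_sqrt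
      calc D * R ≤ D * J := by gcongr
        _ ≤ D * (v * M) := by gcongr
        _ = v * (D * M) := by ring
    calc |θ| / S * (√(D * R) + K * B) ≤ |θ| / S * (√v * S + K * (u * S)) := by gcongr
      _ = |θ| * (√v + K * u) := by field_simp
  have e9 : phi Y t M - Complex.exp (((-(θ ^ 2 / 2) : ℝ) : ℂ)) =
      (phi Y t M - phi Y t L ^ J * phi Y t R) + phi Y t L ^ J * (phi Y t R - 1) +
      (phi Y t L ^ J - E ^ J) := by
    rw [hEJ]
    ring
  rw [e9]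
  refine (norm_add₃_le).trans ?_
  have e10 : ‖phi Y t L ^ J * (phi Y t R - 1)‖ ≤ |θ| * (√v + K * u) := by
    rw [norm_mul, norm_pow]
    calc ‖phi Y t L‖ ^ J * ‖phi Y t R - 1‖ ≤ 1 * (|θ| * (√v + K * u)) := by
          gcongr
          exact pow_le_one₀ (norm_nonneg _) (phi_le Y t L)
      _ = _ := one_mul _
  linarith

/-- **KW-CLT.** -/
theorem t_CLT : S_QAM → S_CLT := by
  rintro ⟨K, hK, hQ⟩ δ θ ε hδ hε
  set C : ℝ := (1 + K / √δ) ^ 2 + K * ((1 + 1 / δ) ^ 2 + (1 / δ) ^ 2) with hC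
  -- choice of `J`
  have l1 : Tendsto (fun J : ℕ => 2 * C * |θ| ^ 3 / √J + 2 * θ ^ 4 / J) atTop (𝓝 0) := by
    have h1 : Tendsto (fun J : ℕ => 2 * C * |θ| ^ 3 / √(J : ℝ)) atTop (𝓝 0) :=
      Tendsto.const_div_atTop (Real.tendsto_sqrt_atTop.comp tendsto_natCast_atTop_atTop) _
    have h2 : Tendsto (fun J : ℕ => 2 * θ ^ 4 / (J : ℝ)) atTop (𝓝 0) :=
      Tendsto.const_div_atTop tendsto_natCast_atTop_atTop _
    simpa using h1.add h2
  obtain ⟨J, hJ, hJ1⟩ := ((l1.eventually (gt_mem_nhds (half_pos hε))).and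
    (eventually_ge_atTop 1)).exists
  -- choice of `A`
  have hu : Tendsto (fun A : ℝ => 1 / √(δ * A)) atTop (𝓝 0) :=
    Tendsto.const_div_atTop (Real.tendsto_sqrt_atTop.comp (tendsto_id.const_mul_atTop hδ)) _
  have hv : Tendsto (fun A : ℝ => (J : ℝ) / A) atTop (𝓝 0) :=
    Tendsto.const_div_atTop tendsto_id _
  have hc1 : Continuous (fun p : ℝ × ℝ => J * |θ| * p.1 + |θ| * (√p.2 + K * p.1) +
      3 / 2 * θ ^ 2 * (p.2 + √J * K * p.1)) := by fun_prop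
  have hc2 : Continuous (fun p : ℝ × ℝ => p.2 + √J * K * p.1) := by fun_prop
  have l2 := (hc1.tendsto (0, 0)).comp (hu.prodMk_nhds hv)
  have l3 := (hc2.tendsto (0, 0)).comp (hu.prodMk_nhds hv)
  simp only [Function.comp_def, mul_zero, add_zero, Real.sqrt_zero] at l2 l3
  obtain ⟨A, ⟨hA1, hA2⟩, hA3⟩ := (((l2.eventually (gt_mem_nhds (half_pos hε))).and
    (l3.eventually (gt_mem_nhds one_pos))).and (eventually_ge_atTop (J : ℝ))).exists
  have hJr : (1 : ℝ) ≤ J := by exact_mod_cast hJ1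
  have hA0 : 0 < A := by linarith
  refine ⟨A, hA0, ?_⟩
  intro α _ _ Y B D m0 h hBD M hM
  obtain ⟨hD0, hq, h4⟩ := hQ α Y B D m0 h
  have hB := h.Bpos
  have hm0 : (1 : ℝ) ≤ m0 := by exact_mod_cast h.mpos
  have hMm : m0 * J ≤ M := by
    have h1 : ((m0 * J : ℕ) : ℝ) ≤ M := by
      push_cast
      calc (m0 : ℝ) * J ≤ m0 * A := by gcongr
        _ = A * m0 := mul_comm _ _
        _ ≤ M := hM
    exact_mod_cast h1
  have hAM : A ≤ M := by
    calc A = A * 1 := (mul_one A).symm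
      _ ≤ A * m0 := by gcongr
      _ ≤ M := hM
  have hu1 : B ≤ 1 / √(δ * A) * √(D * M) := by
    have h1 : 0 < √(δ * A) := Real.sqrt_pos.2 (by positivity)
    rw [one_div, inv_mul_eq_div, le_div_iff₀ h1]
    apply le_of_sq_le_sq _ (Real.sqrt_nonneg _)
    rw [mul_pow, Real.sq_sqrt (by positivity), Real.sq_sqrt (by positivity)]
    calc B ^ 2 * (δ * A) = (δ * B ^ 2) * A := by ring
      _ ≤ (D * m0) * A := by gcongr
      _ = D * (A * m0) := by ring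
      _ ≤ D * M := by gcongr
  have hv1 : (J : ℝ) ≤ J / A * M := by
    rw [div_mul_eq_mul_div, le_div_iff₀ hA0]
    gcongr
  have key := main_bound (θ := θ) hK hδ h hq h4 hBD hJ1 hMm (u := 1 / √(δ * A)) (v := J / A)
    (by positivity) hu1 hv1 hA2.le
  have e1 : Ec M (fun c => Complex.exp (((θ * (Y M c / √(D * M)) : ℝ) : ℂ) * Complex.I)) =
      phi Y (θ / √(D * M)) M := by
    unfold phi
    congr 1
    funext c
    congr 3
    ring
  rw [e1]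
  refine key.trans ?_
  rw [← hC]
  linarith

end Pool.Agent.Y454.KW
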